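import Mathlib

/-! X-ray formula for the kernel 1/|y-z| in the plane:
`2 ∫ f(z)/|y-z| dz = ∫_{-π}^{π} ∫_ℝ f(y + s e_φ) ds dφ`. -/

set_option autoImplicit false

open MeasureTheory Set
open scoped ENNReal Real

namespace Pool.Agent.Helper28Disc

/-- The Euclidean plane. -/
abbrev E2 := EuclideanSpace ℝ (Fin 2)

/-- The unit vector in the direction `φ`. -/
noncomputable def dir (φ : ℝ) : E2 := !₂[Real.cos φ, Real.sin φ]

@[simp] lemma dir_zero (φ : ℝ) : dir φ 0 = Real.cos φ := by simp [dir]
@[simp] lemma dir_one (φ : ℝ) : dir φ 1 = Real.sin φ := by simp [dir]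

lemma norm_dir (φ : ℝ) : ‖dir φ‖ = 1 := by
  rw [EuclideanSpace.norm_eq, Fin.sum_univ_two]
  simp

lemma continuous_dir : Continuous dir := by
  unfold dir
  fun_prop

/-- The measurable equivalence of the plane with `ℝ × ℝ`. -/
noncomputable def toPlane : ℝ × ℝ ≃ᵐ E2 :=
  (MeasurableEquiv.finTwoArrow (α := ℝ)).symm.trans (MeasurableEquiv.toLp 2 (Fin 2 → ℝ))

lemma toPlane_apply (p : ℝ × ℝ) : toPlane p = !₂[p.1, p.2] := by
  rfl

lemma measurePreserving_toPlane : MeasurePreserving toPlane volume volume :=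
  (volume_preserving_finTwoArrow ℝ).symm.trans
    (EuclideanSpace.volume_preserving_symm_measurableEquiv_toLp (Fin 2)).symm

lemma toPlane_polar (p : ℝ × ℝ) : toPlane (polarCoord.symm p) = p.1 • dir p.2 := by
  rw [toPlane_apply, polarCoord_symm_apply]
  ext i
  fin_cases i <;> simp [dir]

/-- Polar coordinates in the Euclidean plane. -/
theorem lintegral_polar (f : E2 → ℝ≥0∞) (hf : Measurable f) :
    ∫⁻ z, f z = ∫⁻ φ in Ioo (-π) π, ∫⁻ s in Ioi (0 : ℝ), ENNReal.ofReal s * f (s • dir φ) := by
  rw [← measurePreserving_toPlane.lintegral_comp_emb toPlane.measurableEmbedding,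
    ← lintegral_comp_polarCoord_symm, polarCoord_target]
  have h1 : ∀ p : ℝ × ℝ, ENNReal.ofReal p.1 • f (toPlane (polarCoord.symm p))
      = ENNReal.ofReal p.1 * f (p.1 • dir p.2) := fun p => by
    rw [toPlane_polar, smul_eq_mul]
  simp_rw [h1]
  have hm : Measurable fun p : ℝ × ℝ => ENNReal.ofReal p.1 * f (p.1 • dir p.2) := by
    refine (ENNReal.measurable_ofReal.comp measurable_fst).mul (hf.comp ?_)
    exact (continuous_fst.smul (continuous_dir.comp continuous_snd)).measurable
  rw [Measure.volume_eq_prod, ← Measure.prod_restrict, lintegral_prod_symm _ hm.aemeasurable]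

/-- Half-line form of the X-ray formula. -/
theorem xray_half (f : E2 → ℝ≥0∞) (hf : Measurable f) (y : E2) :
    ∫⁻ z, f z * (edist y z)⁻¹
      = ∫⁻ φ in Ioo (-π) π, ∫⁻ s in Ioi (0 : ℝ), f (y + s • dir φ) := by
  rw [← lintegral_add_left_eq_self (μ := (volume : Measure E2)) (fun z => f z * (edist y z)⁻¹) y]
  rw [lintegral_polar]
  · refine lintegral_congr fun φ => ?_
    refine setLIntegral_congr_fun measurableSet_Ioi fun s hs => ?_
    have hs0 : (0 : ℝ) < s := hs
    have h2 : edist y (y + s • dir φ) = ENNReal.ofReal s := by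
      rw [edist_dist, dist_eq_norm]
      congr 1
      rw [show y - (y + s • dir φ) = -(s • dir φ) by abel, norm_neg, norm_smul, norm_dir,
        Real.norm_of_nonneg hs0.le, mul_one]
    rw [h2, mul_comm (f _), ← mul_assoc, ENNReal.mul_inv_cancel, one_mul]
    · exact (ENNReal.ofReal_pos.2 hs0).ne'
    · exact ENNReal.ofReal_ne_top
  · refine (hf.comp (measurable_const.add measurable_id)).mul ?_
    refine Measurable.inv ?_
    exact (measurable_const.edist (measurable_const.add measurable_id))

/-- **X-ray formula.** -/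
theorem xray (f : E2 → ℝ≥0∞) (hf : Measurable f) (y : E2) :
    2 * ∫⁻ z, f z * (edist y z)⁻¹
      = ∫⁻ φ in Ioo (-π) π, ∫⁻ s : ℝ, f (y + s • dir φ) := by
  have h1 := xray_half f hf y
  have h2 : ∫⁻ z, f z * (edist y z)⁻¹
      = ∫⁻ φ in Ioo (-π) π, ∫⁻ s in Iio (0 : ℝ), f (y + s • dir φ) := by
    have h3 := xray_half (fun z => f (2 • y - z)) (hf.comp (by fun_prop)) y
    have h4 : ∫⁻ z, f z * (edist y z)⁻¹ = ∫⁻ z, f (2 • y - z) * (edist y z)⁻¹ := by
      rw [← lintegral_sub_left_eq_self (μ := (volume : Measure E2))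
        (fun z => f z * (edist y z)⁻¹) (2 • y)]
      refine lintegral_congr fun z => ?_
      congr 2
      rw [edist_dist, edist_dist, dist_eq_norm, dist_eq_norm, ← norm_neg (y - z)]
      congr 2
      rw [two_smul]; abel
    rw [h4, h3]
    refine lintegral_congr fun φ => ?_
    rw [← lintegral_indicator measurableSet_Ioi, ← lintegral_indicator measurableSet_Iio,
      ← lintegral_neg_eq_self]
    refine lintegral_congr fun s => ?_
    by_cases hs : s < 0
    · have h5 : (-s) ∈ Ioi (0 : ℝ) := by simpa using hs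
      have h6 : s ∈ Iio (0 : ℝ) := hs
      rw [indicator_of_mem h5, indicator_of_mem h6]
      congr 1
      rw [two_smul, neg_smul]; abel
    · have h5 : (-s) ∉ Ioi (0 : ℝ) := by simpa using hs
      have h6 : s ∉ Iio (0 : ℝ) := hs
      rw [indicator_of_notMem h5, indicator_of_notMem h6]
  have hm : ∀ φ, Measurable fun s : ℝ => f (y + s • dir φ) := fun φ => by
    refine hf.comp ?_
    fun_prop
  rw [two_mul]
  nth_rewrite 1 [h1]
  rw [h2, ← lintegral_add_left]
  · refine lintegral_congr fun φ => ?_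
    have h7 : ∫⁻ s : ℝ, f (y + s • dir φ)
        = (∫⁻ s in Iic (0 : ℝ), f (y + s • dir φ)) + ∫⁻ s in Ioi (0 : ℝ), f (y + s • dir φ) := by
      rw [← lintegral_add_compl _ (measurableSet_Iic (a := (0 : ℝ))), compl_Iic]
    rw [h7, add_comm]
    congr 1
    exact setLIntegral_congr Iio_ae_eq_Iic
  · refine Measurable.lintegral_prod_right' (f := fun q : ℝ × ℝ => f (y + q.2 • dir q.1)) ?_
    refine hf.comp ?_
    exact (continuous_const.add (continuous_snd.smul
      (continuous_dir.comp continuous_fst))).measurable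

end Pool.Agent.Helper28Disc
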