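import Mathlib
import Pool.Agent.Helper28_Disc.XRay

/-! Newtonian energy of the equilibrium density of a disc: `π / (2 r)`. -/

set_option autoImplicit false

open MeasureTheory Set
open scoped ENNReal Real

namespace Pool.Agent.Helper28Disc

/-- chord integral of the arcsine density -/
lemma chord_pos (A : ℝ) (hA : 0 < A) :
    ∫⁻ t : ℝ, ENNReal.ofReal ((√(A - t ^ 2))⁻¹) = ENNReal.ofReal π := by
  set ρ := √A with hρ
  have hρ0 : 0 < ρ := Real.sqrt_pos.2 hA
  have hρA : ρ ^ 2 = A := Real.sq_sqrt hA.le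
  -- reduce to the image of sin
  have himg : (fun θ : ℝ => ρ * Real.sin θ) '' Ioo (-(π / 2)) (π / 2) = Ioo (-ρ) ρ := by
    ext t
    constructor
    · rintro ⟨θ, hθ, rfl⟩
      have h1 : Real.sin θ < 1 := by
        have := Real.sin_lt_sin_of_lt_of_le_pi_div_two hθ.1.le le_rfl hθ.2
        simpa using this
      have h2 : -1 < Real.sin θ := by
        have := Real.sin_lt_sin_of_lt_of_le_pi_div_two le_rfl hθ.2.le hθ.1
        simpa using this
      constructor <;> simp only <;> nlinarith
    · intro ht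
      refine ⟨Real.arcsin (t / ρ), ⟨?_, ?_⟩, ?_⟩
      · rw [Real.neg_pi_div_two_lt_arcsin, lt_div_iff₀ hρ0]
        linarith [ht.1]
      · rw [Real.arcsin_lt_pi_div_two, div_lt_one hρ0]
        exact ht.2
      · simp only
        rw [Real.sin_arcsin]
        · field_simp
        · rw [le_div_iff₀ hρ0]; linarith [ht.1]
        · rw [div_le_one hρ0]; exact ht.2.le
  have hsupp : ∫⁻ t : ℝ, ENNReal.ofReal ((√(A - t ^ 2))⁻¹)
      = ∫⁻ t in Ioo (-ρ) ρ, ENNReal.ofReal ((√(A - t ^ 2))⁻¹) := by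
    rw [← lintegral_indicator measurableSet_Ioo]
    refine lintegral_congr fun t => ?_
    by_cases ht : t ∈ Ioo (-ρ) ρ
    · rw [indicator_of_mem ht]
    · rw [indicator_of_notMem ht]
      have h1 : ρ ^ 2 ≤ t ^ 2 := by
        rw [sq_le_sq, abs_of_pos hρ0]
        by_contra hcon
        push Not at hcon
        exact ht (abs_lt.1 hcon)
      have h2 : √(A - t ^ 2) = 0 := Real.sqrt_eq_zero_of_nonpos (by linarith)
      rw [h2]; simp
  rw [hsupp, ← himg]
  rw [lintegral_image_eq_lintegral_abs_deriv_mul (f' := fun θ => ρ * Real.cos θ)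
    measurableSet_Ioo (fun θ _ => ((Real.hasDerivAt_sin θ).const_mul ρ).hasDerivWithinAt)]
  · have h3 : ∀ θ ∈ Ioo (-(π / 2)) (π / 2),
        ENNReal.ofReal |ρ * Real.cos θ| * ENNReal.ofReal ((√(A - (ρ * Real.sin θ) ^ 2))⁻¹) = 1 := by
      intro θ hθ
      have hc : 0 < Real.cos θ := Real.cos_pos_of_mem_Ioo hθ
      have h4 : A - (ρ * Real.sin θ) ^ 2 = (ρ * Real.cos θ) ^ 2 := by
        rw [mul_pow, mul_pow, hρA, Real.sin_sq]; ring
      rw [h4, Real.sqrt_sq (by positivity), abs_of_pos (by positivity),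
        ← ENNReal.ofReal_mul (by positivity), mul_inv_cancel₀ (by positivity), ENNReal.ofReal_one]
    rw [setLIntegral_congr_fun measurableSet_Ioo h3]
    simp only [lintegral_const, Measure.restrict_apply, MeasurableSet.univ, univ_inter,
      Real.volume_Ioo, one_mul]
    congr 1; ring
  · intro a ha b hb hab
    have h5 : Real.sin a = Real.sin b := mul_left_cancel₀ hρ0.ne' hab
    exact Real.injOn_sin ⟨ha.1.le, ha.2.le⟩ ⟨hb.1.le, hb.2.le⟩ h5

lemma chord_le (A : ℝ) :
    ∫⁻ t : ℝ, ENNReal.ofReal ((√(A - t ^ 2))⁻¹) ≤ ENNReal.ofReal π := by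
  by_cases hA : 0 < A
  · exact (chord_pos A hA).le
  · have h1 : ∀ t : ℝ, ENNReal.ofReal ((√(A - t ^ 2))⁻¹) = 0 := fun t => by
      have h2 : √(A - t ^ 2) = 0 := Real.sqrt_eq_zero_of_nonpos (by nlinarith [sq_nonneg t])
      rw [h2]; simp
    simp [h1]

/-- The (unnormalised) equilibrium density of the disc. -/
noncomputable def eqd (c : E2) (r : ℝ) (z : E2) : ℝ≥0∞ :=
  ENNReal.ofReal ((√(r ^ 2 - ‖z - c‖ ^ 2))⁻¹)

lemma measurable_eqd (c : E2) (r : ℝ) : Measurable (eqd c r) := by
  unfold eqd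
  refine ENNReal.measurable_ofReal.comp ?_
  refine Measurable.inv ?_
  refine Continuous.measurable ?_
  fun_prop

lemma normsq_line (w : E2) (s φ : ℝ) :
    ‖w + s • dir φ‖ ^ 2 = (s + (w 0 * Real.cos φ + w 1 * Real.sin φ)) ^ 2
      + (w 1 * Real.cos φ - w 0 * Real.sin φ) ^ 2 := by
  rw [EuclideanSpace.norm_eq, Real.sq_sqrt (by positivity), Fin.sum_univ_two]
  simp only [PiLp.add_apply, PiLp.smul_apply, dir_zero, dir_one, smul_eq_mul, Real.norm_eq_abs,
    sq_abs]
  have h := Real.sin_sq_add_cos_sq φ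
  linear_combination (s ^ 2 - w 0 ^ 2 - w 1 ^ 2) * h

/-- line integrals of the equilibrium density -/
lemma line_eqd (c : E2) (r : ℝ) (y : E2) (φ : ℝ) :
    ∫⁻ s : ℝ, eqd c r (y + s • dir φ) ≤ ENNReal.ofReal π := by
  set w := y - c with hw
  set q := w 0 * Real.cos φ + w 1 * Real.sin φ with hq
  set p := w 1 * Real.cos φ - w 0 * Real.sin φ with hp
  have h1 : ∀ s : ℝ, eqd c r (y + s • dir φ)
      = (fun t => ENNReal.ofReal ((√((r ^ 2 - p ^ 2) - t ^ 2))⁻¹)) (s + q) := fun s => by
    have h2 : ‖y + s • dir φ - c‖ ^ 2 = (s + q) ^ 2 + p ^ 2 := by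
      rw [show y + s • dir φ - c = w + s • dir φ by rw [hw]; abel, normsq_line]
    unfold eqd
    rw [h2, show r ^ 2 - ((s + q) ^ 2 + p ^ 2) = (r ^ 2 - p ^ 2) - (s + q) ^ 2 by ring]
  simp_rw [h1]
  rw [lintegral_add_right_eq_self (μ := (volume : Measure ℝ))
    (fun t => ENNReal.ofReal ((√((r ^ 2 - p ^ 2) - t ^ 2))⁻¹)) q]
  exact chord_le _

/-- The potential of the equilibrium density is at most `π²`. -/
theorem pot_eqd_le (c : E2) (r : ℝ) (y : E2) :
    ∫⁻ z, eqd c r z * (edist y z)⁻¹ ≤ ENNReal.ofReal (π ^ 2) := by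
  have h := xray (eqd c r) (measurable_eqd c r) y
  have h1 : 2 * ∫⁻ z, eqd c r z * (edist y z)⁻¹ ≤ 2 * ENNReal.ofReal (π ^ 2) := by
    rw [h]
    calc ∫⁻ φ in Ioo (-π) π, ∫⁻ s : ℝ, eqd c r (y + s • dir φ)
        ≤ ∫⁻ φ in Ioo (-π) π, ENNReal.ofReal π := lintegral_mono fun φ => line_eqd c r y φ
      _ = ENNReal.ofReal π * ENNReal.ofReal (π - -π) := by simp
      _ = 2 * ENNReal.ofReal (π ^ 2) := by
          rw [← ENNReal.ofReal_mul Real.pi_pos.le,
            show (2 : ℝ≥0∞) = ENNReal.ofReal 2 by simp,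
            ← ENNReal.ofReal_mul (by norm_num)]
          congr 1; ring
  exact (ENNReal.mul_le_mul_iff_right (by norm_num) (by norm_num)).1 h1

/-- The mass of the equilibrium density is `2 π r`. -/
theorem mass_eqd (c : E2) (r : ℝ) (hr : 0 < r) :
    ∫⁻ z, eqd c r z = ENNReal.ofReal (2 * π * r) := by
  have h0 : ∫⁻ z, eqd c r z = ∫⁻ z, eqd 0 r z := by
    rw [← lintegral_add_right_eq_self (μ := (volume : Measure E2)) (eqd c r) c]
    refine lintegral_congr fun z => ?_
    unfold eqd
    simp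
  rw [h0, lintegral_polar _ (measurable_eqd 0 r)]
  have hrad : ∀ φ : ℝ, ∫⁻ s in Ioi (0 : ℝ), ENNReal.ofReal s * eqd 0 r (s • dir φ)
      = ENNReal.ofReal r := by
    intro φ
    have h1 : ∀ s : ℝ, ENNReal.ofReal s * eqd 0 r (s • dir φ)
        = ENNReal.ofReal s * ENNReal.ofReal ((√(r ^ 2 - s ^ 2))⁻¹) := fun s => by
      unfold eqd
      rw [sub_zero, norm_smul, norm_dir, mul_one, Real.norm_eq_abs, sq_abs]
    simp_rw [h1]
    have himg : (fun θ : ℝ => r * Real.sin θ) '' Ioo 0 (π / 2) = Ioo 0 r := by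
      ext t
      constructor
      · rintro ⟨θ, hθ, rfl⟩
        have h1 : Real.sin θ < 1 := by
          have := Real.sin_lt_sin_of_lt_of_le_pi_div_two
            (by linarith [hθ.1, Real.pi_pos] : -(π / 2) ≤ θ) le_rfl hθ.2
          simpa using this
        have h2 : 0 < Real.sin θ := Real.sin_pos_of_pos_of_lt_pi hθ.1 (by linarith [hθ.2, Real.pi_pos])
        constructor <;> simp only
        · positivity
        · nlinarith
      · intro ht
        refine ⟨Real.arcsin (t / r), ⟨?_, ?_⟩, ?_⟩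
        · rw [Real.arcsin_pos]
          exact div_pos ht.1 hr
        · rw [Real.arcsin_lt_pi_div_two, div_lt_one hr]
          exact ht.2
        · simp only
          rw [Real.sin_arcsin]
          · field_simp
          · have : 0 < t / r := div_pos ht.1 hr
            linarith
          · rw [div_le_one hr]; exact ht.2.le
    have hsupp : ∫⁻ s in Ioi (0 : ℝ), ENNReal.ofReal s * ENNReal.ofReal ((√(r ^ 2 - s ^ 2))⁻¹)
        = ∫⁻ s in Ioo 0 r, ENNReal.ofReal s * ENNReal.ofReal ((√(r ^ 2 - s ^ 2))⁻¹) := by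
      rw [← lintegral_indicator measurableSet_Ioo, ← lintegral_indicator measurableSet_Ioi]
      refine lintegral_congr fun t => ?_
      by_cases ht : t ∈ Ioo 0 r
      · have ht' : t ∈ Ioi (0 : ℝ) := ht.1
        rw [indicator_of_mem ht, indicator_of_mem ht']
      · rw [indicator_of_notMem ht]
        by_cases ht' : t ∈ Ioi (0 : ℝ)
        · rw [indicator_of_mem ht']
          have ht0 : 0 < t := ht'
          have h1 : r ≤ t := by
            by_contra hcon
            push Not at hcon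
            exact ht ⟨ht', hcon⟩
          have h2 : √(r ^ 2 - t ^ 2) = 0 := Real.sqrt_eq_zero_of_nonpos (by nlinarith)
          rw [h2]; simp
        · rw [indicator_of_notMem ht']
    rw [hsupp, ← himg]
    rw [lintegral_image_eq_lintegral_abs_deriv_mul (f' := fun θ => r * Real.cos θ)
      measurableSet_Ioo (fun θ _ => ((Real.hasDerivAt_sin θ).const_mul r).hasDerivWithinAt)]
    · have h3 : ∀ θ ∈ Ioo 0 (π / 2),
          ENNReal.ofReal |r * Real.cos θ| * (ENNReal.ofReal (r * Real.sin θ) *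
            ENNReal.ofReal ((√(r ^ 2 - (r * Real.sin θ) ^ 2))⁻¹))
            = ENNReal.ofReal (r * Real.sin θ) := by
        intro θ hθ
        have hc : 0 < Real.cos θ :=
          Real.cos_pos_of_mem_Ioo ⟨by linarith [hθ.1, Real.pi_pos], hθ.2⟩
        have h4 : r ^ 2 - (r * Real.sin θ) ^ 2 = (r * Real.cos θ) ^ 2 := by
          rw [mul_pow, mul_pow, Real.sin_sq]; ring
        rw [h4, Real.sqrt_sq (by positivity), abs_of_pos (by positivity), mul_left_comm,
          ← ENNReal.ofReal_mul (by positivity : 0 ≤ r * Real.cos θ),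
          mul_inv_cancel₀ (by positivity), ENNReal.ofReal_one, mul_one]
      rw [setLIntegral_congr_fun measurableSet_Ioo h3]
      rw [← ofReal_integral_eq_lintegral_ofReal]
      · congr 1
        rw [← integral_Ioc_eq_integral_Ioo, ← intervalIntegral.integral_of_le (by positivity),
          intervalIntegral.integral_const_mul, integral_sin]
        simp
      · refine IntegrableOn.mono_set (t := Icc 0 (π / 2)) ?_ Ioo_subset_Icc_self
        refine Continuous.integrableOn_Icc ?_
        fun_prop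
      · refine (ae_restrict_iff' measurableSet_Ioo).2 (Filter.Eventually.of_forall fun θ hθ => ?_)
        have h2 : 0 < Real.sin θ := Real.sin_pos_of_pos_of_lt_pi hθ.1 (by linarith [hθ.2, Real.pi_pos])
        simp only [Pi.zero_apply]
        positivity
    · intro a ha b hb hab
      have h5 : Real.sin a = Real.sin b := mul_left_cancel₀ hr.ne' hab
      exact Real.injOn_sin ⟨by linarith [ha.1, Real.pi_pos], ha.2.le⟩
        ⟨by linarith [hb.1, Real.pi_pos], hb.2.le⟩ h5
  simp_rw [hrad]
  simp only [lintegral_const, Measure.restrict_apply, MeasurableSet.univ, univ_inter,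
    Real.volume_Ioo]
  rw [← ENNReal.ofReal_mul hr.le]
  congr 1; ring

/-- **(D1)** A probability measure on the disc with Newtonian energy at most `π / (2 r)`. -/
theorem exists_newton (c : E2) (r : ℝ) (hr : 0 < r) :
    ∃ μ : Measure E2, IsProbabilityMeasure μ ∧ μ (Metric.closedBall c r)ᶜ = 0 ∧
      ∫⁻ x, ∫⁻ y, (edist x y)⁻¹ ∂μ ∂μ ≤ ENNReal.ofReal (π / (2 * r)) := by
  set k : ℝ≥0∞ := ENNReal.ofReal ((2 * π * r)⁻¹) with hk
  have hk1 : k * ENNReal.ofReal (2 * π * r) = 1 := by
    rw [hk, ← ENNReal.ofReal_mul (by positivity), inv_mul_cancel₀ (by positivity),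
      ENNReal.ofReal_one]
  set μ : Measure E2 := k • (volume.withDensity (eqd c r)) with hμ
  have hmass : μ univ = 1 := by
    rw [hμ, Measure.smul_apply, withDensity_apply _ MeasurableSet.univ, Measure.restrict_univ,
      mass_eqd c r hr, smul_eq_mul, hk1]
  have hpot : ∀ x, ∫⁻ y, (edist x y)⁻¹ ∂μ ≤ ENNReal.ofReal (π / (2 * r)) := by
    intro x
    rw [hμ, lintegral_smul_measure, lintegral_withDensity_eq_lintegral_mul _ (measurable_eqd c r)]
    · have h1 := pot_eqd_le c r x
      calc k • ∫⁻ a, (eqd c r * fun y => (edist x y)⁻¹) a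
          = k * ∫⁻ a, eqd c r a * (edist x a)⁻¹ := rfl
        _ ≤ k * ENNReal.ofReal (π ^ 2) := by gcongr
        _ = ENNReal.ofReal (π / (2 * r)) := by
            rw [hk, ← ENNReal.ofReal_mul (by positivity)]
            congr 1
            field_simp
    · exact (measurable_const.edist measurable_id).inv
  refine ⟨μ, ⟨hmass⟩, ?_, ?_⟩
  · rw [hμ, Measure.smul_apply, withDensity_apply _ Metric.isClosed_closedBall.measurableSet.compl]
    have h2 : ∫⁻ a in (Metric.closedBall c r)ᶜ, eqd c r a = 0 := by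
      rw [setLIntegral_congr_fun (g := fun _ => 0)
        Metric.isClosed_closedBall.measurableSet.compl (fun z hz => ?_)]
      · simp
      · have h3 : r < ‖z - c‖ := by
          rw [← dist_eq_norm]
          simpa using hz
        unfold eqd
        rw [Real.sqrt_eq_zero_of_nonpos (by nlinarith)]
        simp
    rw [h2, smul_zero]
  · calc ∫⁻ x, ∫⁻ y, (edist x y)⁻¹ ∂μ ∂μ ≤ ∫⁻ x, ENNReal.ofReal (π / (2 * r)) ∂μ :=
          lintegral_mono hpot
      _ = ENNReal.ofReal (π / (2 * r)) := by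
          rw [lintegral_const, hmass, mul_one]

end Pool.Agent.Helper28Disc
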