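import Mathlib
import Pool.Agent.Helper28_Disc.Newton

/-! Logarithmic energy bound on a disc, and the equality clause for discs. -/

set_option autoImplicit false

open MeasureTheory Set
open scoped ENNReal Real ComplexConjugate

namespace Pool.Agent.Helper28Disc

/-- complex coordinate centred at `c` -/
noncomputable def cx (c : E2) (z : E2) : ℂ := ⟨z 0 - c 0, z 1 - c 1⟩

lemma continuous_cx (c : E2) : Continuous (cx c) := by
  have h : cx c = fun z => ((z 0 - c 0 : ℝ) : ℂ) + ((z 1 - c 1 : ℝ) : ℂ) * Complex.I := by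
    funext z
    apply Complex.ext <;> simp [cx]
  rw [h]
  fun_prop

lemma norm_cx (c z : E2) : ‖cx c z‖ = ‖z - c‖ := by
  rw [EuclideanSpace.norm_eq, Fin.sum_univ_two, Complex.norm_def, Complex.normSq_apply]
  simp [cx, sq]

lemma dist_cx (c x y : E2) : dist x y = ‖cx c x - cx c y‖ := by
  rw [EuclideanSpace.dist_eq, Fin.sum_univ_two, Complex.norm_def, Complex.normSq_apply]
  simp only [cx, Complex.sub_re, Complex.sub_im, Real.dist_eq, sq_abs]
  congr 1; ring

/-- the classical inequality in the disc: `|a - b| R ≤ |R² - a conj b|`. -/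
lemma disc_ineq (a b : ℂ) (R : ℝ) (hR : 0 < R) (ha : ‖a‖ ≤ R) (hb : ‖b‖ ≤ R) :
    ‖a - b‖ ≤ R * ‖1 - a * conj b / (R ^ 2 : ℝ)‖ := by
  have h1 : R * ‖1 - a * conj b / (R ^ 2 : ℝ)‖ = ‖((R ^ 2 : ℝ) : ℂ) - a * conj b‖ / R := by
    have h2 : ((R ^ 2 : ℝ) : ℂ) - a * conj b
        = ((R ^ 2 : ℝ) : ℂ) * (1 - a * conj b / (R ^ 2 : ℝ)) := by
      have : ((R ^ 2 : ℝ) : ℂ) ≠ 0 := by
        exact_mod_cast (by positivity : R ^ 2 ≠ 0)
      field_simp
    rw [h2, norm_mul, Complex.norm_real, Real.norm_of_nonneg (by positivity)]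
    field_simp
  rw [h1, le_div_iff₀ hR]
  have ha2 : Complex.normSq a ≤ R ^ 2 := by
    rw [Complex.normSq_eq_norm_sq]; gcongr
  have hb2 : Complex.normSq b ≤ R ^ 2 := by
    rw [Complex.normSq_eq_norm_sq]; gcongr
  rw [← Real.sqrt_sq hR.le, Complex.norm_def, Complex.norm_def, ← Real.sqrt_mul (Complex.normSq_nonneg _)]
  apply Real.sqrt_le_sqrt
  simp only [Complex.normSq_apply, Complex.sub_re, Complex.sub_im, Complex.mul_re, Complex.mul_im,
    Complex.conj_re, Complex.conj_im, Complex.ofReal_re, Complex.ofReal_im] at ha2 hb2 ⊢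
  rw [Real.sqrt_sq hR.le]
  nlinarith [mul_nonneg (sub_nonneg.2 ha2) (sub_nonneg.2 hb2)]

/-- The energy of the `log |1 - x ȳ / R²|` kernel is nonpositive. -/
lemma energy_nonpos (c : E2) (r R : ℝ) (hr : 0 ≤ r) (hrR : r < R) (μ : Measure E2)
    [IsProbabilityMeasure μ] (hμ : ∀ᵐ x ∂μ, ‖x - c‖ ≤ r) :
    Integrable (fun p : E2 × E2 =>
      Real.log ‖1 - cx c p.1 * conj (cx c p.2) / (R ^ 2 : ℝ)‖) (μ.prod μ) ∧
    ∫ p, Real.log ‖1 - cx c p.1 * conj (cx c p.2) / (R ^ 2 : ℝ)‖ ∂(μ.prod μ) ≤ 0 := by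
  have hR : 0 < R := lt_of_le_of_lt hr hrR
  set q : ℝ := (r / R) ^ 2 with hq
  have hq0 : 0 ≤ q := by positivity
  have hq1 : q < 1 := by
    rw [hq, sq_lt_one_iff₀ (by positivity), div_lt_one hR]; exact hrR
  set w : E2 × E2 → ℂ := fun p => cx c p.1 * conj (cx c p.2) / (R ^ 2 : ℝ) with hw
  have hwc : Continuous w := by
    refine Continuous.div_const ?_ _
    exact ((continuous_cx c).comp continuous_fst).mul
      (Complex.continuous_conj.comp ((continuous_cx c).comp continuous_snd))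
  have hae : ∀ᵐ p ∂(μ.prod μ), ‖w p‖ ≤ q := by
    have h1 : ∀ᵐ p ∂(μ.prod μ), ‖p.1 - c‖ ≤ r :=
      Measure.quasiMeasurePreserving_fst.ae hμ
    have h2 : ∀ᵐ p ∂(μ.prod μ), ‖p.2 - c‖ ≤ r :=
      Measure.quasiMeasurePreserving_snd.ae hμ
    filter_upwards [h1, h2] with p hp1 hp2
    simp only [hw]
    rw [norm_div, norm_mul, RCLike.norm_conj, norm_cx, norm_cx, Complex.norm_real,
      Real.norm_of_nonneg (by positivity : (0 : ℝ) ≤ R ^ 2), hq, div_pow]
    gcongr
    nlinarith [norm_nonneg (p.1 - c), norm_nonneg (p.2 - c)]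
  -- the terms
  set F : ℕ → E2 × E2 → ℝ := fun n p => (w p ^ n / n).re with hF
  have hFle : ∀ n, ∀ᵐ p ∂(μ.prod μ), ‖F n p‖ ≤ q ^ n := by
    intro n
    filter_upwards [hae] with p hp
    simp only [hF, Real.norm_eq_abs]
    refine (Complex.abs_re_le_norm _).trans ?_
    rw [norm_div, norm_pow, Complex.norm_natCast]
    rcases Nat.eq_zero_or_pos n with hn | hn
    · subst hn; simp
    · have : (1 : ℝ) ≤ n := by exact_mod_cast hn
      calc ‖w p‖ ^ n / n ≤ ‖w p‖ ^ n / 1 := by gcongr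
        _ ≤ q ^ n := by rw [div_one]; gcongr
  have hFc : ∀ n, Continuous (F n) := fun n =>
    Complex.continuous_re.comp ((hwc.pow n).div_const _)
  have hFint : ∀ n, Integrable (F n) (μ.prod μ) := fun n =>
    Integrable.of_bound (hFc n).aestronglyMeasurable (q ^ n) (hFle n)
  have hsum : Summable fun n => ∫ p, ‖F n p‖ ∂(μ.prod μ) := by
    refine Summable.of_nonneg_of_le (fun n => integral_nonneg fun p => norm_nonneg _) (fun n => ?_)
      (summable_geometric_of_lt_one hq0 hq1)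
    calc ∫ p, ‖F n p‖ ∂(μ.prod μ) ≤ ∫ _p : E2 × E2, q ^ n ∂(μ.prod μ) :=
          integral_mono_ae (hFint n).norm (integrable_const _) (hFle n)
      _ = q ^ n := by simp
  have hlog : ∀ᵐ p ∂(μ.prod μ), ∑' n, F n p
      = - Real.log ‖1 - cx c p.1 * conj (cx c p.2) / (R ^ 2 : ℝ)‖ := by
    filter_upwards [hae] with p hp
    have h1 : HasSum (fun n : ℕ => w p ^ n / n) (-Complex.log (1 - w p)) :=
      Complex.hasSum_taylorSeries_neg_log (lt_of_le_of_lt hp hq1)
    have h2 := (Complex.hasSum_re h1).tsum_eq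
    rw [h2, Complex.neg_re, Complex.log_re]
  have hmain := hasSum_integral_of_summable_integral_norm hFint hsum
  have hterm : ∀ n, 0 ≤ ∫ p, F n p ∂(μ.prod μ) := by
    intro n
    have h1 : ∀ p : E2 × E2, w p ^ n / n
        = ((R ^ 2 : ℝ) : ℂ)⁻¹ ^ n / n * (cx c p.1 ^ n * conj (cx c p.2 ^ n)) := by
      intro p
      simp only [hw, map_pow]
      rw [div_pow, mul_pow, inv_pow]; ring
    have hbd : ∀ᵐ x ∂μ, ‖cx c x ^ n‖ ≤ r ^ n := by
      filter_upwards [hμ] with x hx
      rw [norm_pow, norm_cx]; gcongr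
    have hint1 : Integrable (fun x => cx c x ^ n) μ :=
      Integrable.of_bound ((continuous_cx c).pow n).aestronglyMeasurable (r ^ n) hbd
    have hint2 : Integrable (fun p => w p ^ n / n) (μ.prod μ) := by
      refine Integrable.of_bound ((hwc.pow n).div_const _).aestronglyMeasurable (q ^ n) ?_
      filter_upwards [hae] with p hp
      rw [norm_div, norm_pow, Complex.norm_natCast]
      rcases Nat.eq_zero_or_pos n with hn | hn
      · subst hn; simp
      · have : (1 : ℝ) ≤ n := by exact_mod_cast hn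
        calc ‖w p‖ ^ n / n ≤ ‖w p‖ ^ n / 1 := by gcongr
          _ ≤ q ^ n := by rw [div_one]; gcongr
    have h2 : ∫ p, F n p ∂(μ.prod μ) = (∫ p, w p ^ n / n ∂(μ.prod μ)).re := by
      simp only [hF]
      exact integral_re hint2
    rw [h2]
    simp_rw [h1]
    rw [integral_const_mul, integral_prod_mul (fun x => cx c x ^ n) (fun y => conj (cx c y ^ n)),
      integral_conj, Complex.mul_conj]
    rw [← Complex.ofReal_inv, ← Complex.ofReal_pow, ← Complex.ofReal_natCast,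
      ← Complex.ofReal_div, ← Complex.ofReal_mul, Complex.ofReal_re]
    have := Complex.normSq_nonneg (∫ x, cx c x ^ n ∂μ)
    positivity
  have hcontlog : AEStronglyMeasurable (fun p : E2 × E2 =>
      Real.log ‖1 - cx c p.1 * conj (cx c p.2) / (R ^ 2 : ℝ)‖) (μ.prod μ) := by
    have h1 : Continuous fun p : E2 × E2 => ‖1 - w p‖ := (continuous_const.sub hwc).norm
    exact (Real.measurable_log.comp h1.measurable).aestronglyMeasurable
  have hbound : ∀ᵐ p ∂(μ.prod μ),
      ‖Real.log ‖1 - cx c p.1 * conj (cx c p.2) / (R ^ 2 : ℝ)‖‖ ≤ (1 - q)⁻¹ := by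
    have hall : ∀ᵐ p ∂(μ.prod μ), ∀ n, ‖F n p‖ ≤ q ^ n := ae_all_iff.2 hFle
    filter_upwards [hlog, hall] with p hp1 hp2
    rw [← norm_neg, ← hp1, ← tsum_geometric_of_lt_one hq0 hq1]
    exact tsum_of_norm_bounded (summable_geometric_of_lt_one hq0 hq1).hasSum hp2
  have hint : Integrable (fun p : E2 × E2 =>
      Real.log ‖1 - cx c p.1 * conj (cx c p.2) / (R ^ 2 : ℝ)‖) (μ.prod μ) :=
    Integrable.of_bound hcontlog _ hbound
  refine ⟨hint, ?_⟩
  have h3 : ∫ p, ∑' n, F n p ∂(μ.prod μ) = - ∫ p,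
      Real.log ‖1 - cx c p.1 * conj (cx c p.2) / (R ^ 2 : ℝ)‖ ∂(μ.prod μ) := by
    rw [← integral_neg]
    exact integral_congr_ae hlog
  have h4 : 0 ≤ ∫ p, ∑' n, F n p ∂(μ.prod μ) := hmain.nonneg hterm
  linarith

/-- **(D2)** Every probability measure on the disc has `exp (- log energy) ≤ r`. -/
theorem log_energy_le (c : E2) (r : ℝ) (hr : 0 < r) (μ : Measure E2) [IsProbabilityMeasure μ]
    (hμ : μ (Metric.closedBall c r)ᶜ = 0)
    (hfin : (∫⁻ x, ∫⁻ y, (if x = y then (⊤ : ENNReal)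
                    else ENNReal.ofReal (-Real.log (dist x y))) ∂μ ∂μ) ≠ ⊤) :
    (∫⁻ x, ∫⁻ y, ENNReal.ofReal (Real.log (dist x y)) ∂μ ∂μ).toReal
      - (∫⁻ x, ∫⁻ y, (if x = y then (⊤ : ENNReal)
                    else ENNReal.ofReal (-Real.log (dist x y))) ∂μ ∂μ).toReal ≤ Real.log r := by
  classical
  have hμ' : ∀ᵐ x ∂μ, ‖x - c‖ ≤ r := by
    have : ∀ᵐ x ∂μ, x ∈ Metric.closedBall c r := by
      rw [ae_iff]; exact hμ
    filter_upwards [this] with x hx
    rwa [← dist_eq_norm]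
  have hmeas1 : Measurable fun p : E2 × E2 => ENNReal.ofReal (Real.log (dist p.1 p.2)) :=
    ENNReal.measurable_ofReal.comp (Real.measurable_log.comp (by fun_prop))
  have hdiag : MeasurableSet {p : E2 × E2 | p.1 = p.2} := measurableSet_eq_fun measurable_fst measurable_snd
  have hmeas2 : Measurable fun p : E2 × E2 => (if p.1 = p.2 then (⊤ : ENNReal)
                    else ENNReal.ofReal (-Real.log (dist p.1 p.2))) :=
    Measurable.ite hdiag measurable_const
      (ENNReal.measurable_ofReal.comp (Real.measurable_log.comp (by fun_prop)).neg)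
  have e1 : (∫⁻ x, ∫⁻ y, ENNReal.ofReal (Real.log (dist x y)) ∂μ ∂μ)
      = ∫⁻ p, ENNReal.ofReal (Real.log (dist p.1 p.2)) ∂(μ.prod μ) :=
    (lintegral_prod _ hmeas1.aemeasurable).symm
  have e2 : (∫⁻ x, ∫⁻ y, (if x = y then (⊤ : ENNReal)
                    else ENNReal.ofReal (-Real.log (dist x y))) ∂μ ∂μ)
      = ∫⁻ p, (if p.1 = p.2 then (⊤ : ENNReal)
                    else ENNReal.ofReal (-Real.log (dist p.1 p.2))) ∂(μ.prod μ) :=
    (lintegral_prod _ hmeas2.aemeasurable).symm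
  rw [e2] at hfin
  rw [e1, e2]
  -- suffices for every R > r
  refine le_of_forall_gt_imp_ge_of_dense (fun L hL => ?_)
  set R := Real.exp L with hRdef
  have hR : 0 < R := Real.exp_pos L
  have hrR : r < R := by
    rw [← Real.log_lt_log_iff hr hR, hRdef, Real.log_exp]; exact hL
  obtain ⟨hint, hnon⟩ := energy_nonpos c r R hr.le hrR μ hμ'
  set G : E2 × E2 → ℝ := fun p =>
    L + Real.log ‖1 - cx c p.1 * conj (cx c p.2) / (R ^ 2 : ℝ)‖ with hG
  have hGint : Integrable G (μ.prod μ) := (integrable_const L).add hint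
  have hGle : ∫ p, G p ∂(μ.prod μ) ≤ L := by
    rw [hG, integral_add (integrable_const L) hint]
    simp only [integral_const, probReal_univ, one_smul]
    linarith
  have hne : ∀ᵐ p ∂(μ.prod μ), p.1 ≠ p.2 := by
    have h1 := ae_lt_top hmeas2 hfin
    filter_upwards [h1] with p hp hcon
    simp [hcon] at hp
  have hpt : ∀ᵐ p ∂(μ.prod μ), ENNReal.ofReal (Real.log (dist p.1 p.2)) + ENNReal.ofReal (- G p)
      ≤ (if p.1 = p.2 then (⊤ : ENNReal) else ENNReal.ofReal (-Real.log (dist p.1 p.2)))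
        + ENNReal.ofReal (G p) := by
    have h1 : ∀ᵐ p ∂(μ.prod μ), ‖p.1 - c‖ ≤ r := Measure.quasiMeasurePreserving_fst.ae hμ'
    have h2 : ∀ᵐ p ∂(μ.prod μ), ‖p.2 - c‖ ≤ r := Measure.quasiMeasurePreserving_snd.ae hμ'
    filter_upwards [h1, h2, hne] with p hp1 hp2 hp3
    rw [if_neg hp3]
    have hd : 0 < dist p.1 p.2 := dist_pos.2 hp3
    have h3 : dist p.1 p.2 ≤ R * ‖1 - cx c p.1 * conj (cx c p.2) / (R ^ 2 : ℝ)‖ := by
      rw [dist_cx c]
      refine disc_ineq _ _ R hR ?_ ?_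
      · rw [norm_cx]; linarith
      · rw [norm_cx]; linarith
    have h4 : 0 < ‖1 - cx c p.1 * conj (cx c p.2) / (R ^ 2 : ℝ)‖ := by
      by_contra hcon
      have : ‖1 - cx c p.1 * conj (cx c p.2) / (R ^ 2 : ℝ)‖ = 0 :=
        le_antisymm (not_lt.1 hcon) (norm_nonneg _)
      rw [this] at h3
      linarith
    have h5 : Real.log (dist p.1 p.2) ≤ G p := by
      have := Real.log_le_log hd h3
      rw [Real.log_mul hR.ne' h4.ne', hRdef, Real.log_exp] at this
      exact this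
    set a := Real.log (dist p.1 p.2)
    set b := G p
    rcases le_total 0 a with ha | ha
    · have hb : 0 ≤ b := ha.trans h5
      rw [ENNReal.ofReal_of_nonpos (by linarith : -b ≤ 0), add_zero]
      exact (ENNReal.ofReal_le_ofReal h5).trans le_add_self
    · rw [ENNReal.ofReal_of_nonpos ha, zero_add]
      exact (ENNReal.ofReal_le_ofReal (by linarith)).trans le_self_add
  have hI := lintegral_mono_ae hpt
  have hGm : AEMeasurable (fun p => ENNReal.ofReal (G p)) (μ.prod μ) :=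
    hGint.aestronglyMeasurable.aemeasurable.ennreal_ofReal
  have hGm' : AEMeasurable (fun p => ENNReal.ofReal (- G p)) (μ.prod μ) :=
    hGint.aestronglyMeasurable.aemeasurable.neg.ennreal_ofReal
  rw [lintegral_add_left hmeas1, lintegral_add_left hmeas2] at hI
  have hGeq := integral_eq_lintegral_pos_part_sub_lintegral_neg_part hGint
  have hf1 : ∫⁻ p, ENNReal.ofReal (G p) ∂(μ.prod μ) ≠ ⊤ := by
    refine ne_top_of_le_ne_top hGint.2.ne ?_
    refine lintegral_mono fun p => ?_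
    rw [← ofReal_norm]
    exact ENNReal.ofReal_le_ofReal (le_abs_self _)
  have hf2 : ∫⁻ p, ENNReal.ofReal (- G p) ∂(μ.prod μ) ≠ ⊤ := by
    refine ne_top_of_le_ne_top hGint.2.ne ?_
    refine lintegral_mono fun p => ?_
    rw [← ofReal_norm]
    exact ENNReal.ofReal_le_ofReal (neg_le_abs _)
  set P := ∫⁻ p, ENNReal.ofReal (Real.log (dist p.1 p.2)) ∂(μ.prod μ) with hP
  set N := ∫⁻ p, (if p.1 = p.2 then (⊤ : ENNReal)
                    else ENNReal.ofReal (-Real.log (dist p.1 p.2))) ∂(μ.prod μ) with hN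
  set A := ∫⁻ p, ENNReal.ofReal (G p) ∂(μ.prod μ) with hA
  set B := ∫⁻ p, ENNReal.ofReal (- G p) ∂(μ.prod μ) with hB
  have hPfin : P ≠ ⊤ := by
    have : P ≤ N + A := le_self_add.trans hI
    exact ne_top_of_le_ne_top (ENNReal.add_ne_top.2 ⟨hfin, hf1⟩) this
  have hR1 : P.toReal + B.toReal ≤ N.toReal + A.toReal := by
    rw [← ENNReal.toReal_add hPfin hf2, ← ENNReal.toReal_add hfin hf1]
    exact ENNReal.toReal_mono (ENNReal.add_ne_top.2 ⟨hfin, hf1⟩) hI
  rw [hGeq] at hGle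
  linarith

/-- **The equality clause for discs** (the direction `(2/π) b ≤ a`). -/
theorem disc_final (K : Set E2) (a b : ENNReal)
    (ha : a = (⨆ (μ : Measure (EuclideanSpace ℝ (Fin 2))) (_ : IsProbabilityMeasure μ)
            (_ : μ Kᶜ = 0),
            (∫⁻ x, ∫⁻ y, (edist x y)⁻¹ ∂μ ∂μ)⁻¹))
    (hb : b = (⨆ (μ : Measure (EuclideanSpace ℝ (Fin 2))) (_ : IsProbabilityMeasure μ)
            (_ : μ Kᶜ = 0)
            (_ : (∫⁻ x, ∫⁻ y, (if x = y then (⊤ : ENNReal)
                    else ENNReal.ofReal (-Real.log (dist x y))) ∂μ ∂μ) ≠ ⊤),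
            ENNReal.ofReal (Real.exp
              ((∫⁻ x, ∫⁻ y, ENNReal.ofReal (Real.log (dist x y)) ∂μ ∂μ).toReal
                - (∫⁻ x, ∫⁻ y, (if x = y then (⊤ : ENNReal)
                    else ENNReal.ofReal (-Real.log (dist x y))) ∂μ ∂μ).toReal))))
    (hK : ∃ (c : EuclideanSpace ℝ (Fin 2)) (r : ℝ), 0 < r ∧ K = Metric.closedBall c r) :
    ENNReal.ofReal (2 / Real.pi) * b ≤ a := by
  obtain ⟨c, r, hr, rfl⟩ := hK
  have hb' : b ≤ ENNReal.ofReal r := by
    rw [hb]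
    refine iSup_le fun μ => iSup_le fun hμ1 => iSup_le fun hμ2 => iSup_le fun hμ3 => ?_
    apply ENNReal.ofReal_le_ofReal
    rw [← Real.le_log_iff_exp_le hr]
    exact log_energy_le c r hr μ hμ2 hμ3
  have ha' : ENNReal.ofReal (2 * r / π) ≤ a := by
    obtain ⟨μ, hμ1, hμ2, hμ3⟩ := exists_newton c r hr
    rw [ha]
    refine le_iSup_of_le μ (le_iSup_of_le hμ1 (le_iSup_of_le hμ2 ?_))
    rw [ENNReal.le_inv_iff_le_inv]
    refine hμ3.trans ?_
    rw [← ENNReal.ofReal_inv_of_pos (by positivity)]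
    apply ENNReal.ofReal_le_ofReal
    rw [inv_div]
  calc ENNReal.ofReal (2 / Real.pi) * b ≤ ENNReal.ofReal (2 / Real.pi) * ENNReal.ofReal r := by
        gcongr
    _ = ENNReal.ofReal (2 * r / π) := by
        rw [← ENNReal.ofReal_mul (by positivity)]
        congr 1; ring
    _ ≤ a := ha'

end Pool.Agent.Helper28Disc
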